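import Pool.Agent.Helper32.Limit

/-!
MP_208f9a_co: ordered Ramsey numbers of powers of paths, off-diagonal form, with different powers
in the two colours.
-/

set_option autoImplicit false

open Finset

namespace Pool.Agent.Results.MP_208f9a_co.OffDiagonal

/-- The `t`-th power of the path `0, 1, ..., n - 1`, with its natural order. -/
def pathPow (n t : ℕ) : SimpleGraph (Fin n) where
  Adj i j := i ≠ j ∧ (i : ℕ) ≤ (j : ℕ) + t ∧ (j : ℕ) ≤ (i : ℕ) + t
  symm := ⟨fun _ _ h => ⟨h.1.symm, h.2.2, h.2.1⟩⟩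
  loopless := ⟨fun _ h => h.1 rfl⟩

/-- The ordered graph `H` is contained in the ordered graph `G`. -/
def Contained {m N : ℕ} (H : SimpleGraph (Fin m)) (G : SimpleGraph (Fin N)) : Prop :=
  ∃ f : Fin m → Fin N, StrictMono f ∧ ∀ i j, H.Adj i j → G.Adj (f i) (f j)

/-- Every red-blue colouring of the edges of the complete graph on `Fin N` contains a red ordered
copy of `H` or a blue ordered copy of `H'` (the red edges form `G`, the blue ones its complement). -/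
def Arrow {m n : ℕ} (N : ℕ) (H : SimpleGraph (Fin m)) (H' : SimpleGraph (Fin n)) : Prop :=
  ∀ G : SimpleGraph (Fin N), Contained H G ∨ Contained H' Gᶜ

/-- The ordered Ramsey number. -/
noncomputable def orderedRamsey {m n : ℕ} (H : SimpleGraph (Fin m)) (H' : SimpleGraph (Fin n)) : ℕ :=
  sInf {N : ℕ | Arrow N H H'}

open Pool.Agent.Helper32.PowPath

/-- The two colour bound, off-diagonal. -/
theorem path_vs_path' (t t' : ℕ) (ht : 1 ≤ t) (ht' : 1 ≤ t') (a : ℝ) (ha : 1 < a) :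
    ∃ A : ℝ, 0 < A ∧ ∀ (V : Type) [LinearOrder V] [Fintype V] [Nonempty V] (E : V → V → Prop)
      (X : Finset V) (b b' : ℕ), ¬ HasPath E t X (b + 1) →
      ¬ HasPath (fun u v => ¬ E u v) t' X (b' + 1) →
      (X.card : ℝ) ≤ A * (((b : ℝ) + 2) * b') ^ a := by
  obtain ⟨k, q, hk, hq, N1, N2⟩ := params a ha
  have ha0 : 0 < a := by linarith
  set S : ℕ := (s1 t t' + s2 t t') * 2 ^ (k + 1) with hS
  have hS2 : 2 ≤ S := by
    rw [hS]
    have h1 := s1_pos t t' ht ht'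
    have h2 : 2 ≤ 2 ^ (k + 1) := by
      have := Nat.one_le_two_pow (n := k)
      rw [pow_succ]; omega
    calc 2 = 1 * 2 := rfl
      _ ≤ (s1 t t' + s2 t t') * 2 ^ (k + 1) := Nat.mul_le_mul (by omega) h2
  obtain ⟨A1, hA1, hcvp⟩ := clique_vs_path t' ht' a ha S hS2
  set A : ℝ := max (q : ℝ) (A1 * 3 ^ a) with hA
  have hA0 : 0 < A := lt_of_lt_of_le (by positivity) (le_max_right _ _)
  refine ⟨A, hA0, ?_⟩
  intro V _ _ _ E X0 b0 b0' hb1 hb2
  have hmain := main_induction (V := V) E t t' (s1 t t') (s2 t t') ht ht'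
    (s1_pos t t' ht ht') (s2_pos t t' ht ht') (sizes_ok t t' ht ht') a A ha k q hk hq (le_max_left _ _) N1 N2 X0
    (by
      intro X hX r b' hr hLab hb'
      rcases X.eq_empty_or_nonempty with hXe | hXne
      · rw [hXe]; simp; positivity
      have hb1 : 1 ≤ b' := by
        rcases Nat.eq_zero_or_pos b' with h0 | h0
        · exfalso; rw [h0] at hb'; exact hb' (hasPath_one hXne)
        · exact h0
      have hb1' : (1 : ℝ) ≤ b' := by exact_mod_cast hb1
      have hno := hLab.no_clique (le_s1 t t' ht') (le_s2 t t' ht') S (by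
        rw [hS]; exact Nat.mul_le_mul_left _ (by omega))
      have h1' := hcvp V E X hno b' hb'
      calc (X.card : ℝ) ≤ A1 * ((b' : ℝ) + 2) ^ a := h1'
        _ ≤ A1 * (3 * (b' : ℝ)) ^ a := by
            refine mul_le_mul_of_nonneg_left ?_ hA1.le
            exact Real.rpow_le_rpow (by positivity) (by linarith) ha0.le
        _ = (A1 * 3 ^ a) * (b' : ℝ) ^ a := by
            rw [Real.mul_rpow (by norm_num) (by positivity)]; ring
        _ ≤ A * (b' : ℝ) ^ a := mul_le_mul_of_nonneg_right (le_max_right _ _) (by positivity))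
    X0.card X0 (Subset.refl _) rfl (b0 + 1) b0' (lab_of_no_path ht (le_s2 t t' ht') hb1) hb2
  refine hmain.trans (le_of_eq ?_)
  push_cast
  congr 3
  ring

lemma contained_of_hasPath {N : ℕ} [Nonempty (Fin N)] (n t : ℕ) (G : SimpleGraph (Fin N))
    (h : HasPath G.Adj t univ n) : Contained (pathPow n t) G := by
  obtain ⟨f, _, h2, h3⟩ := h
  refine ⟨fun i => f i, fun i j hij => h2 i j hij j.2, ?_⟩
  rintro i j ⟨hne, h4, h5⟩
  rcases lt_or_gt_of_ne hne with hlt | hlt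
  · exact h3 i j hlt j.2 h5
  · exact (h3 j i hlt i.2 h4).symm

theorem arrow_of_large (t t' : ℕ) (ht : 1 ≤ t) (ht' : 1 ≤ t') (a : ℝ) (ha : 1 < a) :
    ∃ A : ℝ, 0 < A ∧ ∀ m n N : ℕ, 1 ≤ m → 1 ≤ n →
      A * (((m : ℝ) + 1) * (n - 1)) ^ a < N → Arrow N (pathPow m t) (pathPow n t') := by
  obtain ⟨A, hA, h⟩ := path_vs_path' t t' ht ht' a ha
  refine ⟨A, hA, ?_⟩
  intro m n N hm hn hN G
  have hN0 : (0 : ℝ) < N := by
    refine lt_of_le_of_lt ?_ hN
    have : (1 : ℝ) ≤ n := by exact_mod_cast hn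
    have h2 : (0 : ℝ) ≤ ((m : ℝ) + 1) * (n - 1) := mul_nonneg (by positivity) (by linarith)
    positivity
  have hN0' : 0 < N := by exact_mod_cast hN0
  have : Nonempty (Fin N) := ⟨⟨0, hN0'⟩⟩
  by_cases hR : HasPath G.Adj t univ m
  · exact Or.inl (contained_of_hasPath m t G hR)
  by_cases hB : HasPath (fun u v => ¬ G.Adj u v) t' univ n
  · refine Or.inr (contained_of_hasPath n t' Gᶜ ?_)
    obtain ⟨f, h1, h2, h3⟩ := hB
    refine ⟨f, h1, h2, ?_⟩
    intro i j hij hj hjt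
    rw [SimpleGraph.compl_adj]
    exact ⟨(h2 i j hij hj).ne, h3 i j hij hj hjt⟩
  exfalso
  obtain ⟨b, rfl⟩ : ∃ b, m = b + 1 := ⟨m - 1, by omega⟩
  obtain ⟨b', rfl⟩ : ∃ b', n = b' + 1 := ⟨n - 1, by omega⟩
  have := h (Fin N) G.Adj univ b b' hR hB
  rw [card_univ, Fintype.card_fin] at this
  push_cast at hN
  have e : ((b : ℝ) + 1 + 1) * (b' + 1 - 1) = ((b : ℝ) + 2) * b' := by ring
  rw [e] at hN
  linarith

theorem lt_of_arrow (t t' : ℕ) (ht : 1 ≤ t) (ht' : 1 ≤ t') (m n N : ℕ) (hm : 1 ≤ m) (hn : 1 ≤ n)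
    (h : Arrow N (pathPow m t) (pathPow n t')) : (m - 1) * (n - 1) < N := by
  by_contra hcon
  push Not at hcon
  let G : SimpleGraph (Fin N) :=
    { Adj := fun u v => u ≠ v ∧ (u : ℕ) / (m - 1) = (v : ℕ) / (m - 1)
      symm := ⟨fun u v h => ⟨h.1.symm, h.2.symm⟩⟩
      loopless := ⟨fun u h => h.1 rfl⟩ }
  obtain ⟨f, hf, h1⟩ | ⟨f, hf, h1⟩ := h G
  · -- all in the same block
    have hstep : ∀ i : ℕ, ∀ hi : i < m, (f ⟨i, hi⟩ : ℕ) / (m - 1) = (f ⟨0, by omega⟩ : ℕ) / (m - 1) := by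
      intro i
      induction i with
      | zero => intro hi; rfl
      | succ i ih =>
        intro hi
        have := h1 ⟨i, by omega⟩ ⟨i + 1, hi⟩ ⟨by simp, by simp; omega, by simp; omega⟩
        rw [← ih (by omega)]
        exact this.2.symm
    rcases Nat.eq_zero_or_pos (m - 1) with hm0 | hm0
    · have h3 : (f ⟨0, by omega⟩ : ℕ) < N := (f _).2
      rw [hm0, zero_mul] at hcon
      omega
    have hinj : Set.InjOn (fun i : Fin m => (f i : ℕ)) (univ : Finset (Fin m)) := by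
      intro i _ j _ hij
      exact hf.injective (Fin.ext hij)
    set c := (f ⟨0, by omega⟩ : ℕ) / (m - 1) with hc
    have hmaps : ∀ i ∈ (univ : Finset (Fin m)), (f i : ℕ) ∈ Ico (c * (m - 1)) (c * (m - 1) + (m - 1)) := by
      intro i _
      have h2 := hstep i i.2
      have e1 := Nat.div_add_mod (f i : ℕ) (m - 1)
      have e2 := Nat.mod_lt (f i : ℕ) hm0
      have h3 : (f i : ℕ) / (m - 1) = c := h2
      rw [h3, mul_comm] at e1
      rw [mem_Ico]
      omega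
    have hcard := card_le_card_of_injOn _ hmaps hinj
    rw [card_univ, Fintype.card_fin, Nat.card_Ico, Nat.add_sub_cancel_left] at hcard
    omega
  · have h3 : (f ⟨n - 1, by omega⟩ : ℕ) < N := (f _).2
    rcases Nat.eq_zero_or_pos (m - 1) with hm0 | hm0
    · rw [hm0, zero_mul] at hcon
      omega
    have hstep : ∀ i : ℕ, ∀ hi : i < n, i ≤ (f ⟨i, hi⟩ : ℕ) / (m - 1) := by
      intro i
      induction i with
      | zero => intro hi; exact Nat.zero_le _
      | succ i ih =>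
        intro hi
        have h2 := h1 ⟨i, by omega⟩ ⟨i + 1, hi⟩ ⟨by simp, by simp; omega, by simp; omega⟩
        rw [SimpleGraph.compl_adj] at h2
        have h3 := ih (by omega)
        have hlt : f ⟨i, by omega⟩ < f ⟨i + 1, hi⟩ := hf (by simp)
        have h4 : (f ⟨i, by omega⟩ : ℕ) / (m - 1) ≤ (f ⟨i + 1, hi⟩ : ℕ) / (m - 1) :=
          Nat.div_le_div_right (Fin.le_def.1 hlt.le)
        have h5 : (f ⟨i, by omega⟩ : ℕ) / (m - 1) ≠ (f ⟨i + 1, hi⟩ : ℕ) / (m - 1) := by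
          intro heq
          exact h2.2 ⟨hlt.ne, heq⟩
        omega
    have h2 := hstep (n - 1) (by omega)
    have h4 : (n - 1) * (m - 1) ≤ (f ⟨n - 1, by omega⟩ : ℕ) := (Nat.le_div_iff_mul_le hm0).1 h2
    rw [mul_comm] at h4
    omega

theorem bounds (t t' : ℕ) (ht : 1 ≤ t) (ht' : 1 ≤ t') (ε : ℝ) (hε : 0 < ε) :
    ∃ A : ℝ, 0 < A ∧ ∀ m n : ℕ, 1 ≤ m → 1 ≤ n →
      IsLeast {N : ℕ | Arrow N (pathPow m t) (pathPow n t')} (orderedRamsey (pathPow m t) (pathPow n t')) ∧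
      (m - 1) * (n - 1) < orderedRamsey (pathPow m t) (pathPow n t') ∧
      (orderedRamsey (pathPow m t) (pathPow n t') : ℝ) ≤ A * ((m : ℝ) * n) ^ (1 + ε) := by
  obtain ⟨A, hA, h⟩ := arrow_of_large t t' ht ht' (1 + ε) (by linarith)
  refine ⟨A * 2 ^ (1 + ε) + 1, by positivity, ?_⟩
  intro m n hm hn
  have hmr : (1 : ℝ) ≤ m := by exact_mod_cast hm
  have hnr : (1 : ℝ) ≤ n := by exact_mod_cast hn
  set B : ℝ := A * (((m : ℝ) + 1) * (n - 1)) ^ (1 + ε) with hB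
  have hprod : 0 ≤ ((m : ℝ) + 1) * (n - 1) := mul_nonneg (by linarith) (by linarith)
  have hB0 : 0 ≤ B := by rw [hB]; positivity
  have hmem : Arrow (⌊B⌋₊ + 1) (pathPow m t) (pathPow n t') :=
    h m n _ hm hn (by push_cast; exact Nat.lt_floor_add_one B)
  have hin : Arrow (orderedRamsey (pathPow m t) (pathPow n t')) (pathPow m t) (pathPow n t') :=
    Nat.sInf_mem (s := {N : ℕ | Arrow N (pathPow m t) (pathPow n t')}) ⟨_, hmem⟩
  have hle : orderedRamsey (pathPow m t) (pathPow n t') ≤ ⌊B⌋₊ + 1 :=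
    Nat.sInf_le (s := {N : ℕ | Arrow N (pathPow m t) (pathPow n t')}) hmem
  refine ⟨⟨hin, fun N hN => Nat.sInf_le (s := {N : ℕ | Arrow N (pathPow m t) (pathPow n t')}) hN⟩,
    lt_of_arrow t t' ht ht' m n _ hm hn hin, ?_⟩
  have h1 : (orderedRamsey (pathPow m t) (pathPow n t') : ℝ) ≤ B + 1 := by
    have h2 : (orderedRamsey (pathPow m t) (pathPow n t') : ℝ) ≤ (⌊B⌋₊ : ℝ) + 1 := by exact_mod_cast hle
    have := Nat.floor_le hB0
    linarith
  have hmn : (1 : ℝ) ≤ (m : ℝ) * n := by nlinarith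
  have h2 : (((m : ℝ) + 1) * (n - 1)) ^ (1 + ε) ≤ (2 * ((m : ℝ) * n)) ^ (1 + ε) := by
    refine Real.rpow_le_rpow hprod ?_ (by linarith)
    nlinarith
  have h3 : (2 * ((m : ℝ) * n)) ^ (1 + ε) = 2 ^ (1 + ε) * ((m : ℝ) * n) ^ (1 + ε) :=
    Real.mul_rpow (by norm_num) (by linarith)
  have h4 : (1 : ℝ) ≤ ((m : ℝ) * n) ^ (1 + ε) := Real.one_le_rpow hmn (by linarith)
  have h5 : B ≤ A * (2 ^ (1 + ε) * ((m : ℝ) * n) ^ (1 + ε)) := by
    rw [hB, ← h3]
    exact mul_le_mul_of_nonneg_left h2 hA.le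
  nlinarith

/-- **Ordered Ramsey numbers of powers of paths.**  (1) For all `t, t' ≥ 1` and `ε > 0` there is a
constant `A` such that `(m-1)(n-1) < R_<(P_m^t, P_n^t') ≤ A (mn)^(1+ε)` for all `m, n ≥ 1`.
(2) In particular, for every `t ≥ 1` and `ε > 0`, `R_<(P_n^t, P_n^t) ≤ n^(2+ε)` for all large `n`. -/
theorem result :
    (∀ t t' : ℕ, 1 ≤ t → 1 ≤ t' → ∀ ε : ℝ, 0 < ε → ∃ A : ℝ, 0 < A ∧ ∀ m n : ℕ, 1 ≤ m → 1 ≤ n →
      IsLeast {N : ℕ | Arrow N (pathPow m t) (pathPow n t')} (orderedRamsey (pathPow m t) (pathPow n t')) ∧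
      (m - 1) * (n - 1) < orderedRamsey (pathPow m t) (pathPow n t') ∧
      (orderedRamsey (pathPow m t) (pathPow n t') : ℝ) ≤ A * ((m : ℝ) * n) ^ (1 + ε)) ∧
    (∀ t : ℕ, 1 ≤ t → ∀ ε : ℝ, 0 < ε → ∀ᶠ n : ℕ in Filter.atTop,
      (orderedRamsey (pathPow n t) (pathPow n t) : ℝ) ≤ (n : ℝ) ^ (2 + ε)) := by
  refine ⟨bounds, ?_⟩
  intro t ht ε hε
  obtain ⟨A, hA, h⟩ := bounds t t ht ht (ε / 4) (by positivity)
  have hlim : Filter.Tendsto (fun n : ℕ => (n : ℝ) ^ (ε / 2)) Filter.atTop Filter.atTop :=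
    (tendsto_rpow_atTop (by positivity)).comp tendsto_natCast_atTop_atTop
  filter_upwards [hlim.eventually_ge_atTop A, Filter.eventually_ge_atTop 1] with n hn1 hn2
  have hnr : (1 : ℝ) ≤ n := by exact_mod_cast hn2
  have hn0 : (0 : ℝ) < n := by linarith
  obtain ⟨-, -, h3⟩ := h n n hn2 hn2
  refine h3.trans ?_
  have e1 : ((n : ℝ) * n) ^ (1 + ε / 4) = (n : ℝ) ^ (2 + ε / 2) := by
    have : (n : ℝ) * n = (n : ℝ) ^ (2 : ℝ) := by
      rw [Real.rpow_two]; ring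
    rw [this, ← Real.rpow_mul hn0.le]
    congr 1
    ring
  have e2 : (n : ℝ) ^ (2 + ε) = (n : ℝ) ^ (ε / 2) * (n : ℝ) ^ (2 + ε / 2) := by
    rw [← Real.rpow_add hn0]
    congr 1
    ring
  rw [e1, e2]
  exact mul_le_mul_of_nonneg_right hn1 (by positivity)

end Pool.Agent.Results.MP_208f9a_co.OffDiagonal
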